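import Pool.Agent.H7.ME.Stmts

/-!
# Row WSV of the board me17 (after hz12 and ld16) (MP_fd41b2_co): the inequality for every vertex
-/

set_option autoImplicit false

open Finset

namespace Pool.ME7

open Pool.Agent.H23.KT Pool.Agent.H46.KW Pool.KQ Pool.GT7 Pool.GU7 Pool.HZ7 Pool.IA7

private lemma WSV_cz (p : ℕ) : 0 < cz p := by
  unfold cz e1
  positivity

private lemma WSV_mono {V : Type} {G : SimpleGraph V} {p a : ℕ} {e e' C : ℝ} {W : Finset V}
    {P : Fin (p + 3) → Finset V} {U : Finset V} (h : Str G p a e' C W P U) (he : e' ≤ e) :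
    Str G p a e C W P U :=
  { par := h.par
    disU := h.disU
    cov := h.cov
    lo := fun i => le_trans (mul_le_mul_of_nonneg_right (by linarith) (Nat.cast_nonneg _)) (h.lo i)
    hi := fun i => (h.hi i).trans (mul_le_mul_of_nonneg_right (by linarith) (Nat.cast_nonneg _))
    mis := h.mis
    tot := h.tot
    cU := h.cU
    exc := h.exc }

private lemma WSV_monoq {V : Type} {G : SimpleGraph V} {p a : ℕ} {e f C C' C'' : ℝ} {W : Finset V}
    {P : Fin (p + 3) → Finset V} {U : Finset V} (h : Stq G p a e f C C' W P U) (hC : C' ≤ C'') :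
    Stq G p a e f C C'' W P U :=
  { par := h.par
    disU := h.disU
    cov := h.cov
    lo := h.lo
    hi := h.hi
    mis := h.mis
    tot := h.tot
    cU := h.cU.trans hC }

/-- the size of the neighbourhood -/
private lemma WSV_card {p : ℕ} {A x C₂ ch : ℝ} (hA : 0 < A) (hx : 0 ≤ x) (hC : 0 ≤ C₂)
    (hch : ch = ((p : ℝ) + 3) * ((p : ℝ) + 2) / 2)
    (h : ch * A ^ 2 ≤ ch * (x / ((p : ℝ) + 3)) ^ 2 + C₂ * A) :
    ((p : ℝ) + 3) * A ≤ x + 2 * C₂ := by
  by_contra hcon
  have hcon' := lt_of_not_ge hcon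
  have hp : (0 : ℝ) ≤ p := Nat.cast_nonneg p
  set b : ℝ := (p : ℝ) + 3 with hb
  have hb3 : 3 ≤ b := by linarith
  have h1 : x < b * A - 2 * C₂ := by linarith
  have h2 : x * x ≤ (b * A - 2 * C₂) * (b * A) := by
    have h3 : x ≤ b * A := by linarith
    have h4 : x * x ≤ (b * A - 2 * C₂) * x := mul_le_mul_of_nonneg_right h1.le hx
    have h5 : (b * A - 2 * C₂) * x ≤ (b * A - 2 * C₂) * (b * A) :=
      mul_le_mul_of_nonneg_left h3 (by linarith)
    linarith
  have h3 : ch = b * (b - 1) / 2 := by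
    rw [hch, hb]
    ring
  rw [h3] at h
  have h4 : b * (b - 1) / 2 * (x / b) ^ 2 = (b - 1) / (2 * b) * (x * x) := by
    field_simp
  rw [h4] at h
  have h5 : (b - 1) / (2 * b) * (x * x) ≤ (b - 1) / (2 * b) * ((b * A - 2 * C₂) * (b * A)) :=
    mul_le_mul_of_nonneg_left h2 (div_nonneg (by linarith) (by linarith))
  have h6 : (b - 1) / (2 * b) * ((b * A - 2 * C₂) * (b * A)) =
      b * (b - 1) / 2 * A ^ 2 - (b - 1) * C₂ * A := by
    field_simp
  rw [h6] at h5
  have h7 : (b - 1) * C₂ * A ≤ C₂ * A := by linarith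
  have h8 : 0 ≤ C₂ * A := by positivity
  -- then `C₂ A = 0`, so `x < b A` gives a strict inequality
  have h9 : C₂ * A ≤ 0 := by
    have h14 : 1 * (C₂ * A) ≤ (b - 2) * (C₂ * A) := mul_le_mul_of_nonneg_right (by linarith) h8
    have h15 : (b - 1) * C₂ * A = (b - 2) * (C₂ * A) + C₂ * A := by ring
    linarith
  have h10 : C₂ = 0 := by
    rcases hC.eq_or_lt with h | h
    · exact h.symm
    · have := mul_pos h hA
      linarith
  rw [h10] at h h1
  have h11 : x * x < (b * A) * (b * A) := by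
    have h12 : x < b * A := by linarith
    exact mul_self_lt_mul_self hx h12
  have h12 : (b - 1) / (2 * b) * (x * x) < (b - 1) / (2 * b) * ((b * A) * (b * A)) :=
    mul_lt_mul_of_pos_left h11 (div_pos (by linarith) (by linarith))
  have h13 : (b - 1) / (2 * b) * ((b * A) * (b * A)) = b * (b - 1) / 2 * A ^ 2 := by
    field_simp
  linarith

theorem WSV_thm (h1 : STCStmt) (h2 : MMCStmt) (h3 : REFStmt) (h4 : LOQStmt) (h5 : PWNStmt)
    (h6 : TTRStmt) (h7 : ZYGStmt) : WSVStmt := by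
  intro p r hP
  obtain ⟨hph0, hph1, -, -⟩ := h5 p r hP
  have hrp := hP.rp
  have hrb := hP.rb
  have hp0 : (0 : ℝ) ≤ p := Nat.cast_nonneg p
  have hr0 : (0 : ℝ) < r := by
    have : 0 < r := by omega
    exact_mod_cast this
  have hrp' : (r : ℝ) ≤ (p : ℝ) + 1 := by exact_mod_cast hrp
  have hlz : 0 ≤ lz p r := by
    unfold lz
    refine div_nonneg (mul_nonneg (by linarith) (by linarith)) (by linarith)
  set C₂ : ℝ := 2 ^ (p + 3) * (((p : ℝ) + 2) * ph p r * r) + lz p r + 1 with hC₂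
  have hC₂0 : 0 ≤ C₂ := by positivity
  obtain ⟨C, hC, hSTC⟩ := h1 p 0 (Nat.zero_le p) C₂
  obtain ⟨C₁, aM, hMMC⟩ := h2 p 0 (Nat.zero_le p) C₂
  have hcz := WSV_cz p
  have hc0 : 0 < min (1 / 2) (cz p / (2 * ((p : ℝ) + 3))) :=
    lt_min (by norm_num) (div_pos hcz (by linarith))
  set c : ℝ := min (1 / 2) (cz p / (2 * ((p : ℝ) + 3))) with hc
  have hc1 : c ≤ 1 / 2 := min_le_left _ _
  have hc2 : c ≤ cz p / (2 * ((p : ℝ) + 3)) := min_le_right _ _
  refine ⟨c, C, hc0, hC, fun ε e hε he he8 => ?_⟩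
  obtain ⟨f, hf0, hf1, hLOQ⟩ := h4 p r hP C (ε / 2) hC (half_pos hε)
  obtain ⟨CR, hCR, hREF⟩ := h3 p f C hf0 hC
  set Cm : ℝ := max CR (2 * C₂ + r) with hCm
  obtain ⟨e₀, he₀, he₀', aL, hLOQ'⟩ := hLOQ Cm (lt_max_of_lt_left hCR)
  set e' : ℝ := min e (e₀ / 2) with he'
  have he'0 : 0 < e' := lt_min he (half_pos he₀)
  have he'e : e' ≤ e := min_le_left _ _
  have he'2 : 2 * e' ≤ e₀ := by
    have : e' ≤ e₀ / 2 := min_le_right _ _
    linarith
  obtain ⟨aR, hREF'⟩ := hREF e' he'0 (by linarith)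
  obtain ⟨aS, hSTC'⟩ := hSTC e' he'0 (by linarith)
  refine ⟨max (max (max aM aL) (max aR aS)) (max 1 ⌈4 * (lz p r * C₁) / ε⌉₊), fun a ha => ?_⟩
  intro V _ _ G hG v
  have haM : a ≥ aM := le_trans (le_max_left _ _) (le_trans (le_max_left _ _)
    (le_trans (le_max_left _ _) ha))
  have haL : a ≥ aL := le_trans (le_max_right _ _) (le_trans (le_max_left _ _)
    (le_trans (le_max_left _ _) ha))
  have haR : a ≥ aR := le_trans (le_max_left _ _) (le_trans (le_max_right _ _)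
    (le_trans (le_max_left _ _) ha))
  have haS : a ≥ aS := le_trans (le_max_right _ _) (le_trans (le_max_right _ _)
    (le_trans (le_max_left _ _) ha))
  have ha1' : 1 ≤ a := le_trans (le_max_left _ _) (le_trans (le_max_right _ _) ha)
  have haE : 4 * (lz p r * C₁) / ε ≤ (a : ℝ) := by
    refine (Nat.le_ceil _).trans ?_
    exact_mod_cast le_trans (le_max_right 1 _) (le_trans (le_max_right _ _) ha)
  have ha1 : (1 : ℝ) ≤ a := by exact_mod_cast ha1'
  have ha0 : (0 : ℝ) < a := by linarith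
  set W : Finset V := nb G univ v with hW
  have hCB : CB G W (p + 3) := CB.nb (r := p + 3) hG.cb (mem_univ v)
  have hWc : W.card ≤ (p + 3) * a + r := hG.deg v
  have hWc' : W.card ≤ (p + 3) * (a + 1) := by
    have : r ≤ p + 3 := by omega
    calc W.card ≤ (p + 3) * a + r := hWc
      _ ≤ (p + 3) * a + (p + 3) := by omega
      _ = (p + 3) * (a + 1) := by ring
  have hpow : (0 : ℝ) < (a : ℝ) ^ (p + 3) := by positivity
  have hM0 : 0 ≤ Mz p r a := by
    unfold Mz
    positivity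
  have hMb : Mz p r a * (a : ℝ) ^ (p + 3) = ((p : ℝ) + 2) * ph p r * a := by
    unfold Mz
    rw [div_mul_cancel₀ _ hpow.ne']
  by_cases hdf : C₂ * a ≤ df G p 0 r a W
  · refine ⟨c, Or.inl rfl, ?_⟩
    have hkc : (kc G W (p + 3) : ℝ) ≤ 2 ^ (p + 3) * (a : ℝ) ^ (p + 3) := by
      have g1 := h7 G (p + 3) W hCB (p + 3)
      rw [Nat.choose_self, Nat.cast_one, one_mul] at g1
      have g2 : (W.card : ℝ) / ((p + 3 : ℕ) : ℝ) ≤ 2 * a := by
        rw [div_le_iff₀ (by positivity)]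
        have g3 : (W.card : ℝ) ≤ ((p + 3 : ℕ) : ℝ) * ((a : ℝ) + 1) := by exact_mod_cast hWc'
        have g4 : (0 : ℝ) ≤ ((p + 3 : ℕ) : ℝ) := Nat.cast_nonneg _
        nlinarith
      calc (kc G W (p + 3) : ℝ) ≤ ((W.card : ℝ) / ((p + 3 : ℕ) : ℝ)) ^ (p + 3) := g1
        _ ≤ (2 * (a : ℝ)) ^ (p + 3) := pow_le_pow_left₀ (by positivity) g2 _
        _ = _ := mul_pow _ _ _
    have hsum : ∑ L ∈ clq G W (p + 3), min (r : ℝ) (XX G p r a W L) ≤
        r * (kc G W (p + 3) : ℝ) := by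
      calc ∑ L ∈ clq G W (p + 3), min (r : ℝ) (XX G p r a W L)
          ≤ ∑ _L ∈ clq G W (p + 3), (r : ℝ) := Finset.sum_le_sum fun L _ => min_le_left _ _
        _ = r * (kc G W (p + 3) : ℝ) := by
            rw [Finset.sum_const, nsmul_eq_mul, kc_eq, mul_comm]
    have g5 : Mz p r a * ∑ L ∈ clq G W (p + 3), min (r : ℝ) (XX G p r a W L) ≤
        2 ^ (p + 3) * (((p : ℝ) + 2) * ph p r * r) * a := by
      calc Mz p r a * ∑ L ∈ clq G W (p + 3), min (r : ℝ) (XX G p r a W L)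
          ≤ Mz p r a * (r * (2 ^ (p + 3) * (a : ℝ) ^ (p + 3))) :=
            mul_le_mul_of_nonneg_left (hsum.trans (mul_le_mul_of_nonneg_left hkc hr0.le)) hM0
        _ = 2 ^ (p + 3) * r * (Mz p r a * (a : ℝ) ^ (p + 3)) := by ring
        _ = 2 ^ (p + 3) * (((p : ℝ) + 2) * ph p r * r) * a := by
            rw [hMb]
            ring
    have g6 : 0 ≤ Mz p r a * ((r : ℝ) / ((p : ℝ) + 4)) * kc G W (p + 3) := by positivity
    have g7 : c * a ≤ 1 * a := mul_le_mul_of_nonneg_right (by linarith) ha0.le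
    have g8 : 0 ≤ ε * a := by positivity
    rw [hC₂, add_mul, add_mul] at hdf
    linarith
  · have hdf' := lt_of_not_ge hdf
    have hTT : ((p + 3).choose 2 : ℝ) * (a : ℝ) ^ 2 ≤ TT (p + 3) 2 a r := by
      have := (h6.2.2.1 (p + 3) 2 a r (by omega)).1
      exact_mod_cast this
    have hdfe : df G p 0 r a W = (TT (p + 3) 2 a r : ℝ) - kc G W 2 := by
      unfold df
      rw [Nat.zero_add]
    have hk : ((p + 3).choose 2 : ℝ) * (a : ℝ) ^ 2 ≤ kc G W 2 + C₂ * a := by
      rw [hdfe] at hdf'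
      linarith
    have hk' : ((p + 3).choose (0 + 2) : ℝ) * (a : ℝ) ^ (0 + 2) ≤
        kc G W (0 + 2) + C₂ * (a : ℝ) ^ (0 + 1) := by
      rw [Nat.zero_add, Nat.zero_add, pow_one]
      exact hk
    obtain ⟨P, U, hStr⟩ := hSTC' a haS G W hCB hWc' hk'
    have hmm := hMMC a haM G W hCB hWc' hk'
    obtain ⟨P', U', hStq, hUU, hlow⟩ := hREF' a haR G W P U hStr
    -- the size of `W`
    have hsize : (((p + 3) * a + r : ℕ) : ℝ) ≤ W.card + Cm := by
      have g1 := h7 G (p + 3) W hCB 2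
      have hch : ((p + 3).choose 2 : ℝ) = ((p : ℝ) + 3) * ((p : ℝ) + 2) / 2 := by
        rw [Nat.cast_choose_two]
        push_cast
        ring
      have g2 : (W.card : ℝ) / ((p + 3 : ℕ) : ℝ) = (W.card : ℝ) / ((p : ℝ) + 3) := by
        push_cast
        rfl
      rw [g2] at g1
      have g3 := WSV_card (p := p) (A := a) (x := W.card) (C₂ := C₂) ha0 (Nat.cast_nonneg _) hC₂0
        hch (by linarith)
      have g4 : 2 * C₂ + r ≤ Cm := le_max_right _ _
      push_cast
      linarith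
    have hloc := hLOQ' a haL G (2 * e') W P' U' (by linarith) he'2
      (WSV_monoq hStq (le_max_left _ _)) hCB hWc hsize
    -- the number of cliques
    have hkb : lz p r * a - ε / 4 * a ≤
        Mz p r a * ((r : ℝ) / ((p : ℝ) + 4)) * kc G W (p + 3) := by
      have g1 : (a : ℝ) ^ (p + 4) ≤ (a + C₁) * kc G W (p + 3) := by exact_mod_cast hmm
      have hC₁ : (0 : ℝ) ≤ C₁ := Nat.cast_nonneg _
      have g2 : Mz p r a * ((r : ℝ) / ((p : ℝ) + 4)) * (a : ℝ) ^ (p + 3) = lz p r * a := by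
        calc Mz p r a * ((r : ℝ) / ((p : ℝ) + 4)) * (a : ℝ) ^ (p + 3)
            = (Mz p r a * (a : ℝ) ^ (p + 3)) * ((r : ℝ) / ((p : ℝ) + 4)) := by ring
          _ = lz p r * a := by
              rw [hMb]
              unfold lz ph
              field_simp
      set κ : ℝ := (kc G W (p + 3) : ℝ) with hκ
      set ν : ℝ := Mz p r a * ((r : ℝ) / ((p : ℝ) + 4)) with hν
      have hν0 : 0 ≤ ν := by positivity
      have g3 : (lz p r * a) * a ≤ (a + C₁) * (ν * κ) := by
        calc (lz p r * a) * a = ν * ((a : ℝ) ^ (p + 3) * a) := by rw [← g2]; ring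
          _ = ν * (a : ℝ) ^ (p + 4) := by rw [← pow_succ]
          _ ≤ ν * ((a + C₁) * κ) := mul_le_mul_of_nonneg_left g1 hν0
          _ = _ := by ring
      have g4 : 4 * (lz p r * C₁) ≤ a * ε := by
        rwa [div_le_iff₀ hε] at haE
      by_contra hcon
      have hcon' := lt_of_not_ge hcon
      have g5 : ((a : ℝ) + C₁) * (ν * κ) < (a + C₁) * (lz p r * a - ε / 4 * a) :=
        mul_lt_mul_of_pos_left hcon' (by linarith)
      have g6 : ((a : ℝ) + C₁) * (lz p r * a - ε / 4 * a) =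
          (lz p r * a) * a + (lz p r * C₁) * a - ε / 4 * a * a - C₁ * (ε / 4 * a) := by ring
      have g7 : (lz p r * C₁) * a ≤ (a * ε / 4) * a :=
        mul_le_mul_of_nonneg_right (by linarith) ha0.le
      have g8 : 0 ≤ C₁ * (ε / 4 * a) := by positivity
      have g9 : (a * ε / 4) * a = ε / 4 * a * a := by ring
      linarith
    have hlow0 : ∀ z ∈ U', 0 ≤ (nlow G p (un P') z : ℝ) / (a : ℝ) ^ (p + 2) :=
      fun z _ => by positivity
    have hS0 : 0 ≤ ∑ z ∈ U', (nlow G p (un P') z : ℝ) / (a : ℝ) ^ (p + 2) :=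
      Finset.sum_nonneg hlow0
    set S : ℝ := ∑ z ∈ U', (nlow G p (un P') z : ℝ) / (a : ℝ) ^ (p + 2) with hS
    have hb2 : (0 : ℝ) < 1 / (2 * ((p : ℝ) + 3)) := by positivity
    have hdel : 0 ≤ (((p + 3) * a + r : ℕ) : ℝ) - W.card := by
      have : (W.card : ℝ) ≤ (((p + 3) * a + r : ℕ) : ℝ) := by exact_mod_cast hWc
      linarith
    have hεa : 0 ≤ ε * a := by positivity
    by_cases hcard : W.card = (p + 3) * a + r
    · by_cases hU : U = ∅
      · refine ⟨0, Or.inr ⟨rfl, P, hcard, ?_⟩, ?_⟩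
        · rw [hU] at hStr
          exact WSV_mono hStr he'e
        · have g1 : 0 ≤ (a : ℝ) / 2 * ((((p + 3) * a + r : ℕ) : ℝ) - W.card) :=
          mul_nonneg (half_pos ha0).le hdel
          have g2 : 0 ≤ 1 / (2 * ((p : ℝ) + 3)) * S := mul_nonneg hb2.le hS0
          linarith
      · refine ⟨c, Or.inl rfl, ?_⟩
        obtain ⟨z, hz⟩ := Finset.nonempty_iff_ne_empty.2 hU
        have g1 : 0 ≤ (a : ℝ) / 2 * ((((p + 3) * a + r : ℕ) : ℝ) - W.card) :=
          mul_nonneg (half_pos ha0).le hdel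
        have g2 : cz p * a ≤ S := by
          have g3 : (nlow G p (un P') z : ℝ) / (a : ℝ) ^ (p + 2) ≤ S :=
            Finset.single_le_sum hlow0 (hUU hz)
          have g4 : cz p * a ≤ (nlow G p (un P') z : ℝ) / (a : ℝ) ^ (p + 2) := by
            rw [le_div_iff₀ (by positivity)]
            calc cz p * a * (a : ℝ) ^ (p + 2) = cz p * (a : ℝ) ^ (p + 3) := by
                  rw [pow_succ (a : ℝ) (p + 2)]
                  ring
              _ ≤ _ := hlow z hz
          linarith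
        have g3 : c * a ≤ 1 / (2 * ((p : ℝ) + 3)) * S := by
          calc c * a ≤ cz p / (2 * ((p : ℝ) + 3)) * a := mul_le_mul_of_nonneg_right hc2 ha0.le
            _ = 1 / (2 * ((p : ℝ) + 3)) * (cz p * a) := by ring
            _ ≤ _ := mul_le_mul_of_nonneg_left g2 hb2.le
        linarith
    · refine ⟨c, Or.inl rfl, ?_⟩
      have g0 : (1 : ℝ) ≤ (((p + 3) * a + r : ℕ) : ℝ) - W.card := by
        have : W.card + 1 ≤ (p + 3) * a + r := by omega
        have : ((W.card + 1 : ℕ) : ℝ) ≤ (((p + 3) * a + r : ℕ) : ℝ) := by exact_mod_cast this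
        rw [Nat.cast_add, Nat.cast_one] at this
        linarith
      have g1 : (a : ℝ) / 2 * 1 ≤ (a : ℝ) / 2 * ((((p + 3) * a + r : ℕ) : ℝ) - W.card) :=
        mul_le_mul_of_nonneg_left g0 (half_pos ha0).le
      have g2 : 0 ≤ 1 / (2 * ((p : ℝ) + 3)) * S := mul_nonneg hb2.le hS0
      have g3 : c * a ≤ 1 / 2 * a := mul_le_mul_of_nonneg_right hc1 ha0.le
      linarith

end Pool.ME7
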